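import Pool.Agent.R433.MD.Descent

/-!
# Descent of the meromorphic continuation of the `L`-series of elliptic curves

`L(E/K, s)` is the Euler product of the problem.  Let `K` be a number field and `n ≥ 1`.

1. There are finitely many extensions `F_1, …, F_r` of `K`, whose degrees are divisible by `n` and divide
   `n²`, such that for EVERY elliptic curve `E` over `K` and every set `U`: if all the `L(E/F_i, s)` have a
   meromorphic continuation to `U`, then so has `L(E/K, s)^n`.
2. If `m` and `n` are coprime, then there are finitely many extensions `F_i` of `K`, whose degrees are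
   divisible by `m` and divide `m²` or are divisible by `n` and divide `n²`, such that for every elliptic
   curve `E` over `K` and every set `U`: if all the `L(E/F_i, s)` have a meromorphic continuation to `U`,
   then so has `L(E/K, s)`.
3. So for coprime `m`, `n` Question 1 of the problem (for all number fields) is equivalent to its
   restriction to the number fields whose degree is divisible by `m` or by `n`, and for every `N` it is
   equivalent to its restriction to the number fields of degree at least `N`.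

The coprimality in 2 cannot be avoided in this method, since a relation with integral coefficients
between the trivial character of a group and characters induced from subgroups gives a relation between
the indices.

The proof (in the starting files `Pool/Agent/R433/MD`, by helper433).  Let `p` be a prime number and let
`a`, `b` be rational primes such that `a`, `b` are independent in `K^*` modulo `p`-th powers.  The
`p + 1` fields `K(ᵖ√b)`, `K(ᵖ√(a b^j))`, `0 ≤ j < p`, and the field `K(ᵖ√a, ᵖ√b)` satisfy a relation for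
the numbers of the homomorphisms of their rings of integers to finite fields, hence
`∏_j L(E/Z_j, s) = L(E/K, s)^p L(E/Y, s)` up to finitely many Euler factors (which are controlled for the
minimal models of the different fields).  This is iterated over the prime factors of `n`.
-/

set_option autoImplicit false

namespace Pool.Agent.Results.MP_0d9be2_nt.CoprimeDescent

open NumberField IsDedekindDomain

/-- `W v` is, for every finite place `v`, an integral model of `E` with discriminant minimal at
`v`. -/
def MinimalModels {K : Type} [Field K] [NumberField K] (E : WeierstrassCurve K)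
    (W : HeightOneSpectrum (𝓞 K) → WeierstrassCurve (𝓞 K)) : Prop :=
  ∀ v : HeightOneSpectrum (𝓞 K),
    (∃ C : WeierstrassCurve.VariableChange K, C • (W v).map (algebraMap (𝓞 K) K) = E) ∧
    ∀ W' : WeierstrassCurve (𝓞 K),
      (∃ C : WeierstrassCurve.VariableChange K, C • W'.map (algebraMap (𝓞 K) K) = E) →
      ∀ n : ℕ, (W v).Δ ∈ v.asIdeal ^ n → W'.Δ ∈ v.asIdeal ^ n

open Classical in
/-- The Euler factor at `v`, `(1 - a_v Nv^{-s} + Nv^{1-2s})⁻¹` if the reduction at `v` is good and
`(1 - a_v Nv^{-s})⁻¹` if it is bad, where `a_v` is `Nv` minus the number of affine points of the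
reduction of `W v`. -/
noncomputable def localFactor {K : Type} [Field K] [NumberField K]
    (W : HeightOneSpectrum (𝓞 K) → WeierstrassCurve (𝓞 K)) (v : HeightOneSpectrum (𝓞 K))
    (s : ℂ) : ℂ :=
  (1 - ((Ideal.absNorm v.asIdeal : ℂ)
        - (Nat.card {xy : (𝓞 K ⧸ v.asIdeal) × (𝓞 K ⧸ v.asIdeal) //
            ((W v).map (Ideal.Quotient.mk v.asIdeal)).toAffine.Equation xy.1 xy.2} : ℂ))
        * (Ideal.absNorm v.asIdeal : ℂ) ^ (-s)
    + (if (W v).Δ ∈ v.asIdeal then 0 else (Ideal.absNorm v.asIdeal : ℂ))
        * (Ideal.absNorm v.asIdeal : ℂ) ^ (-2 * s))⁻¹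

/-- The `L`-series, as the Euler product over all finite places. -/
noncomputable def LSeries {K : Type} [Field K] [NumberField K]
    (W : HeightOneSpectrum (𝓞 K) → WeierstrassCurve (𝓞 K)) (s : ℂ) : ℂ :=
  ∏' v : HeightOneSpectrum (𝓞 K), localFactor W v s

/-- `L(E/K, s) ^ n` has a meromorphic continuation to the set `U`, whatever the minimal models. -/
def Continues {K : Type} [Field K] [NumberField K] (E : WeierstrassCurve K) (n : ℕ)
    (U : Set ℂ) : Prop :=
  ∀ W : HeightOneSpectrum (𝓞 K) → WeierstrassCurve (𝓞 K), MinimalModels E W →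
    ∃ f : ℂ → ℂ, MeromorphicOn f U ∧ ∀ s : ℂ, 3 / 2 < s.re → f s = LSeries W s ^ n

/-- The assertion of Question 1 for the number field `K`: for all elliptic curves `E` over `K`,
`L(E/K, s)` has a meromorphic continuation to `ℂ`. -/
def HoldsOver (K : Type) [Field K] [NumberField K] : Prop :=
  ∀ E : WeierstrassCurve K, E.IsElliptic → Continues E 1 Set.univ

section bridge

open Pool.Agent.H341R2.EC (IsModel IsMinAt red aff trc dlt)
open Pool.Agent.R433.MD
open Pool.Agent.H921R2.TatePole (nm two_le_nm)

variable {K : Type} [Field K] [NumberField K]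

omit [NumberField K] in
theorem isModel_iff (E : WeierstrassCurve K) (W : WeierstrassCurve (𝓞 K)) :
    (∃ C : WeierstrassCurve.VariableChange K, C • W.map (algebraMap (𝓞 K) K) = E) ↔
      IsModel E W := by
  constructor
  · rintro ⟨C, hC⟩
    exact ⟨C⁻¹, by rw [← hC, inv_smul_smul]⟩
  · rintro ⟨C, hC⟩
    exact ⟨C⁻¹, by rw [← hC, inv_smul_smul]⟩

theorem minimalModels_iff (E : WeierstrassCurve K)
    (V : HeightOneSpectrum (𝓞 K) → WeierstrassCurve (𝓞 K)) :
    MinimalModels E V ↔ ∀ v, IsMinAt E v (V v) := by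
  unfold MinimalModels IsMinAt
  simp only [isModel_iff]

theorem factor_eq (V : HeightOneSpectrum (𝓞 K) → WeierstrassCurve (𝓞 K)) (s : ℂ)
    (v : HeightOneSpectrum (𝓞 K)) : localFactor V v s = (lf V s v)⁻¹ := by
  unfold localFactor
  congr 1
  unfold lf trc dlt
  have h0 : ((nm v : ℕ) : ℂ) ≠ 0 := by
    have := two_le_nm v
    exact_mod_cast (by omega : nm v ≠ 0)
  have e1 : Nat.card {xy : (𝓞 K ⧸ v.asIdeal) × (𝓞 K ⧸ v.asIdeal) //
      ((V v).map (Ideal.Quotient.mk v.asIdeal)).toAffine.Equation xy.1 xy.2} =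
      aff (red v (V v)) := by
    unfold aff red
    refine Nat.card_congr (Equiv.subtypeEquivRight fun xy => ?_)
    rw [WeierstrassCurve.Affine.equation_iff]
  have e2 : ((nm v : ℕ) : ℂ) ^ (1 - 2 * s) = ((nm v : ℕ) : ℂ) * ((nm v : ℕ) : ℂ) ^ (-2 * s) := by
    rw [sub_eq_add_neg, Complex.cpow_add _ _ h0, Complex.cpow_one]
    congr 2
    ring
  have e3 : (Ideal.absNorm v.asIdeal : ℂ) = ((nm v : ℕ) : ℂ) := rfl
  rw [e1, e2, e3]
  push_cast
  split_ifs with h
  · ring
  · ring

theorem LSeries_eq (V : HeightOneSpectrum (𝓞 K) → WeierstrassCurve (𝓞 K)) (s : ℂ) :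
    LSeries V s = LL V s := tprod_congr fun v => factor_eq V s v

theorem continues_iff {E : WeierstrassCurve K} (hE : E.IsElliptic) (n : ℕ) (U : Set ℂ) :
    Continues E n U ↔ Cont E U n := by
  constructor
  · intro h
    obtain ⟨V, hV⟩ := exists_minimal E hE
    obtain ⟨f, hf, hfL⟩ := h V ((minimalModels_iff E V).2 hV)
    exact ⟨V, hV, f, hf, fun s hs => by rw [hfL s hs, LSeries_eq]⟩
  · rintro ⟨V, hV, Λ, hΛ, hL⟩ W hW
    obtain ⟨R, hR, hRL⟩ := models_unique hE W V ((minimalModels_iff E W).1 hW) hV
    have h2 : MeromorphicOn R U := fun x _ => hR x trivial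
    refine ⟨fun s => R s ^ n * Λ s, (h2.fun_pow n).fun_mul hΛ, fun s hs => ?_⟩
    change R s ^ n * Λ s = LSeries W s ^ n
    rw [LSeries_eq, (hRL s hs).2, mul_pow, hL s hs]

end bridge

/-- **Descent of the meromorphic continuation.** -/
theorem result :
    -- 1. powers of the `L`-series
    (∀ (K : Type) [Field K] [NumberField K] (n : ℕ), 0 < n →
      ∃ (r : ℕ) (F : Fin r → Type) (_ : ∀ i, Field (F i)) (_ : ∀ i, NumberField (F i))
        (_ : ∀ i, Algebra K (F i)),
        (∀ i, n ∣ Module.finrank K (F i) ∧ Module.finrank K (F i) ∣ n ^ 2) ∧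
        ∀ E : WeierstrassCurve K, E.IsElliptic → ∀ U : Set ℂ,
          (∀ i, Continues (E.map (algebraMap K (F i))) 1 U) → Continues E n U) ∧
    -- 2. the `L`-series itself
    (∀ (K : Type) [Field K] [NumberField K] (m n : ℕ), 0 < m → 0 < n → Nat.Coprime m n →
      ∃ (r : ℕ) (F : Fin r → Type) (_ : ∀ i, Field (F i)) (_ : ∀ i, NumberField (F i))
        (_ : ∀ i, Algebra K (F i)),
        (∀ i, (m ∣ Module.finrank K (F i) ∧ Module.finrank K (F i) ∣ m ^ 2) ∨
          (n ∣ Module.finrank K (F i) ∧ Module.finrank K (F i) ∣ n ^ 2)) ∧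
        ∀ E : WeierstrassCurve K, E.IsElliptic → ∀ U : Set ℂ,
          (∀ i, Continues (E.map (algebraMap K (F i))) 1 U) → Continues E 1 U) ∧
    -- 3. Question 1 and number fields with degrees divisible by `m` or `n`
    (∀ m n : ℕ, 0 < m → 0 < n → Nat.Coprime m n →
      ((∀ (K : Type) [Field K] [NumberField K], HoldsOver K) ↔
        ∀ (K : Type) [Field K] [NumberField K],
          (m ∣ Module.finrank ℚ K ∨ n ∣ Module.finrank ℚ K) → HoldsOver K)) ∧
    -- Question 1 and number fields of large degree
    ∀ N : ℕ, ((∀ (K : Type) [Field K] [NumberField K], HoldsOver K) ↔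
      ∀ (K : Type) [Field K] [NumberField K], N ≤ Module.finrank ℚ K → HoldsOver K) := by
  have h1 : ∀ (K : Type) [Field K] [NumberField K] (n : ℕ), 0 < n →
      ∃ (r : ℕ) (F : Fin r → Type) (_ : ∀ i, Field (F i)) (_ : ∀ i, NumberField (F i))
        (_ : ∀ i, Algebra K (F i)),
        (∀ i, n ∣ Module.finrank K (F i) ∧ Module.finrank K (F i) ∣ n ^ 2) ∧
        ∀ E : WeierstrassCurve K, E.IsElliptic → ∀ U : Set ℂ,
          (∀ i, Continues (E.map (algebraMap K (F i))) 1 U) → Continues E n U := by
    intro K _ _ n hn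
    obtain ⟨ι, hι, Z, hZ, hC⟩ := Pool.Agent.R433.MD.descent_pow n hn K
    obtain ⟨r, ⟨e⟩⟩ := Finite.exists_equiv_fin ι
    refine ⟨r, fun i => (Z (e.symm i)).F, fun i => (Z (e.symm i)).field,
      fun i => (Z (e.symm i)).nf, fun i => (Z (e.symm i)).alg, fun i => hZ (e.symm i),
      fun E hE U h => ?_⟩
    rw [continues_iff hE]
    refine hC E hE U fun j => ?_
    obtain ⟨i, rfl⟩ := e.symm.surjective j
    exact (continues_iff inferInstance 1 U).1 (h i)
  have h2 : ∀ (K : Type) [Field K] [NumberField K] (m n : ℕ), 0 < m → 0 < n → Nat.Coprime m n →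
      ∃ (r : ℕ) (F : Fin r → Type) (_ : ∀ i, Field (F i)) (_ : ∀ i, NumberField (F i))
        (_ : ∀ i, Algebra K (F i)),
        (∀ i, (m ∣ Module.finrank K (F i) ∧ Module.finrank K (F i) ∣ m ^ 2) ∨
          (n ∣ Module.finrank K (F i) ∧ Module.finrank K (F i) ∣ n ^ 2)) ∧
        ∀ E : WeierstrassCurve K, E.IsElliptic → ∀ U : Set ℂ,
          (∀ i, Continues (E.map (algebraMap K (F i))) 1 U) → Continues E 1 U := by
    intro K _ _ m n hm hn hmn
    obtain ⟨r, Z, hZ, hC⟩ := Pool.Agent.R433.MD.descent_two hm hn K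
    refine ⟨r, fun i => (Z i).F, fun i => (Z i).field, fun i => (Z i).nf, fun i => (Z i).alg,
      hZ, fun E hE U h => ?_⟩
    rw [continues_iff hE]
    have h3 := hC E hE U fun i => (continues_iff inferInstance 1 U).1 (h i)
    rwa [Nat.Coprime.gcd_eq_one hmn] at h3
  have h3 : ∀ m n : ℕ, 0 < m → 0 < n → Nat.Coprime m n →
      ((∀ (K : Type) [Field K] [NumberField K], HoldsOver K) ↔
        ∀ (K : Type) [Field K] [NumberField K],
          (m ∣ Module.finrank ℚ K ∨ n ∣ Module.finrank ℚ K) → HoldsOver K) := by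
    intro m n hm hn hmn
    refine ⟨fun h K _ _ _ => h K, fun h K _ _ E hE => ?_⟩
    obtain ⟨r, F, i1, i2, i3, hF, hC⟩ := h2 K m n hm hn hmn
    refine hC E hE Set.univ fun i => h (F i) ?_ _ inferInstance
    have e : Module.finrank ℚ (F i) = Module.finrank ℚ K * Module.finrank K (F i) :=
      (Module.finrank_mul_finrank ℚ K (F i)).symm
    rw [e]
    rcases hF i with h4 | h4
    · exact Or.inl (Dvd.dvd.mul_left h4.1 _)
    · exact Or.inr (Dvd.dvd.mul_left h4.1 _)
  refine ⟨h1, h2, h3, fun N => ⟨fun h K _ _ _ => h K, fun h => ?_⟩⟩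
  refine (h3 (2 ^ N) (3 ^ N) (by positivity) (by positivity)
    (Nat.Coprime.pow _ _ (by norm_num))).2 fun K _ _ hK => h K ?_
  have hpos : 0 < Module.finrank ℚ K := Module.finrank_pos
  rcases hK with h4 | h4
  · exact (Nat.lt_two_pow_self (n := N)).le.trans (Nat.le_of_dvd hpos h4)
  · exact (Nat.lt_pow_self (by norm_num : 1 < 3)).le.trans (Nat.le_of_dvd hpos h4)

end Pool.Agent.Results.MP_0d9be2_nt.CoprimeDescent
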